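import Pool.Agent.H90.UL.Targets
import Pool.Agent.H27.Pattern.Basic

/-!
# Row DIC of the board ul_modules
-/

set_option autoImplicit false

namespace Pool.Agent.H65.UL

open Pool.Agent.H27.Pattern Pool.Agent.H90.UL Finset

lemma p_lt_iff {a b : ℕ} (ha : 1 ≤ a) (hb : 1 ≤ b) : p a < p b ↔ a < b := by
  refine ⟨fun h => ?_, p_strictMono ha⟩
  by_contra hab
  rcases (not_lt.1 hab).lt_or_eq with h1 | h1
  · exact absurd h (not_lt.2 (p_strictMono hb h1).le)
  · rw [h1] at h
    exact lt_irrefl _ h

lemma not_prime_between {a s : ℕ} (ha : 1 ≤ a) (h1 : p a < s) (h2 : s < p (a + 1)) :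
    ¬ s.Prime := by
  intro hs
  obtain ⟨i, -, hi⟩ := exists_index hs ha h1.le le_rfl
  rw [← hi] at h1 h2
  have h3 := (p_lt_iff ha (by omega)).1 h1
  have h4 := (p_lt_iff (by omega) (by omega)).1 h2
  omega

lemma succ_eq {a r : ℕ} (ha : 1 ≤ a) (h1 : p a < r) (hr : r.Prime)
    (h2 : ∀ s, p a < s → s < r → ¬ s.Prime) : p (a + 1) = r := by
  obtain ⟨i, -, hi⟩ := exists_index hr ha h1.le le_rfl
  have h3 : a < a + i := by
    rw [← hi] at h1
    exact (p_lt_iff ha (by omega)).1 h1
  rcases Nat.lt_or_ge 1 i with h4 | h4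
  · exfalso
    refine h2 (p (a + 1)) (p_strictMono ha (by omega)) ?_ (p_prime _)
    rw [← hi]
    exact p_strictMono (by omega) (by omega)
  · have h5 : i = 1 := by omega
    rw [h5] at hi
    exact hi

theorem pf_dic : T_DIC := by
  intro hD k l hk hl
  by_contra hcov
  have hmiss : ∀ q : ℕ, q.Prime → ∃ c : ℕ, c < q ∧ ∀ i : ℕ, i < l → p (k + i) % q ≠ c := by
    intro q hq
    by_contra hno
    push Not at hno
    exact hcov ⟨q, hq, hno⟩
  obtain ⟨hl1, hl2⟩ := hl
  -- the offsets
  set h : ℕ → ℕ := fun i => p (k + i) - p k with hh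
  have hle : ∀ i : ℕ, p k ≤ p (k + i) := by
    intro i
    rcases Nat.eq_zero_or_pos i with h0 | h0
    · rw [h0, Nat.add_zero]
    · exact (p_strictMono hk (by omega)).le
  have hph : ∀ i : ℕ, p k + h i = p (k + i) := fun i => by
    have := hle i
    simp only [hh]
    omega
  set D : ℕ := h (l - 1) with hDdef
  have hhD : ∀ i : ℕ, i < l → h i ≤ D := by
    intro i hi
    have h1 := hph i
    have h2 := hph (l - 1)
    have h3 : p (k + i) ≤ p (k + (l - 1)) := by
      rcases Nat.lt_or_ge i (l - 1) with h4 | h4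
      · exact (p_strictMono (by omega) (by omega)).le
      · have h5 : i = l - 1 := by omega
        rw [h5]
    omega
  set U : Finset ℕ := (range (D + 1)).filter (fun u => ¬ (p k + u).Prime) with hU
  set r : ℕ → ℕ := fun u => Nat.nth Nat.Prime (D + p k + u) with hr
  have hrp : ∀ u, (r u).Prime := fun u => Nat.prime_nth_prime _
  have hrinj : ∀ u v, u ≠ v → r u ≠ r v := fun u v huv he =>
    huv (by
      have := Nat.nth_injective Nat.infinite_setOfPred_prime he
      omega)
  have hrD : ∀ u, D < r u := by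
    intro u
    have := Nat.add_two_le_nth_prime (D + p k + u)
    simp only [hr]
    omega
  have hcop : Set.Pairwise (U : Set ℕ) (Function.onFun Nat.Coprime r) := by
    intro u _ v _ huv
    exact (Nat.coprime_primes (hrp u) (hrp v)).2 (hrinj u v huv)
  obtain ⟨b, hb⟩ := Nat.chineseRemainderOfFinset (fun u => r u - u) r U
    (fun u _ => (hrp u).ne_zero) hcop
  have hbu : ∀ u ∈ U, r u ∣ b + u := by
    intro u hu
    have h1 := hb u hu
    have h2 : u ≤ D := by
      have := (mem_filter.1 hu).1
      rw [mem_range] at this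
      omega
    have h3 : b + u ≡ (r u - u) + u [MOD r u] := Nat.ModEq.add_right u h1
    have h4 : (r u - u) + u = r u := by
      have := hrD u
      omega
    rw [h4] at h3
    exact (Nat.modEq_zero_iff_dvd.1 (h3.trans (by
      rw [Nat.modEq_zero_iff_dvd])))
  set Q : ℕ := ∏ u ∈ U, r u with hQ
  have hQpos : 0 < Q := Finset.prod_pos fun u _ => (hrp u).pos
  have hrQ : ∀ u ∈ U, r u ∣ Q := fun u hu => Finset.dvd_prod_of_mem r hu
  -- the local condition
  have hloc : ∀ q : ℕ, q.Prime → ∃ x : ℕ, ∀ i : Fin l, ¬ q ∣ Q * x + (b + h i) := by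
    intro q hq
    by_cases hqQ : q ∣ Q
    · obtain ⟨u, hu, hqu⟩ := (Prime.dvd_finsetProd_iff hq.prime r).1 hqQ
      have hqr : q = r u := (Nat.prime_dvd_prime_iff_eq hq (hrp u)).1 hqu
      refine ⟨0, fun i hdvd => ?_⟩
      rw [Nat.mul_zero, Nat.zero_add] at hdvd
      have h1 : r u ∣ b + u := hbu u hu
      rw [← hqr] at h1
      have h2 : (q : ℤ) ∣ ((h i : ℤ) - u) := by
        have e1 : (q : ℤ) ∣ ((b + h i : ℕ) : ℤ) := Int.natCast_dvd_natCast.2 hdvd
        have e2 : (q : ℤ) ∣ ((b + u : ℕ) : ℤ) := Int.natCast_dvd_natCast.2 h1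
        have e3 := dvd_sub e1 e2
        have e4 : (((b + h i : ℕ) : ℤ) - ((b + u : ℕ) : ℤ)) = (h i : ℤ) - u := by
          push_cast
          ring
        rwa [e4] at e3
      have hu' := mem_filter.1 hu
      have hu1 : u ≤ D := by
        have := hu'.1
        rw [mem_range] at this
        omega
      have hu2 : h i ≠ u := by
        intro he
        apply hu'.2
        rw [← he, hph]
        exact p_prime _
      have h3 := hhD i i.2
      have h4 := hrD u
      rw [← hqr] at h4
      have h5 : ((h i : ℤ) - u) ≠ 0 := by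
        intro h0
        apply hu2
        have : (h i : ℤ) = u := by linarith
        exact_mod_cast this
      have h6 := Int.le_of_dvd (abs_pos.2 h5) ((dvd_abs _ _).2 h2)
      have h7 : |((h i : ℤ) - u)| ≤ D := by
        rw [abs_le]
        constructor
        · have : (u : ℤ) ≤ D := by exact_mod_cast hu1
          have : (0 : ℤ) ≤ h i := by positivity
          linarith
        · have : (h i : ℤ) ≤ D := by exact_mod_cast h3
          have : (0 : ℤ) ≤ (u : ℤ) := by positivity
          linarith
      have h8 : (D : ℤ) < q := by exact_mod_cast h4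
      linarith
    · obtain ⟨c, hc, hmc⟩ := hmiss q hq
      have : Fact q.Prime := ⟨hq⟩
      have hQ0 : (Q : ZMod q) ≠ 0 := by
        intro h0
        exact hqQ ((ZMod.natCast_eq_zero_iff _ _).1 h0)
      refine ⟨(((p k : ZMod q) - b - c) * (Q : ZMod q)⁻¹).val, fun i hdvd => ?_⟩
      have h1 := (ZMod.natCast_eq_zero_iff _ _).2 hdvd
      push_cast at h1
      rw [ZMod.natCast_zmod_val] at h1
      have h2 : (Q : ZMod q) * (((p k : ZMod q) - b - c) * (Q : ZMod q)⁻¹) =
          (p k : ZMod q) - b - c := by
        field_simp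
      rw [h2] at h1
      have h3 : ((p (k + i) : ℕ) : ZMod q) = (c : ℕ) := by
        rw [← hph i]
        push_cast
        linear_combination h1
      rw [ZMod.natCast_eq_natCast_iff'] at h3
      apply hmc i i.2
      rw [h3]
      exact Nat.mod_eq_of_lt hc
  obtain ⟨x, hx1, hx2⟩ := hD l (fun _ => Q) (fun i => b + h i) (fun _ => hQpos) hloc (p k + Q + 1)
  set N' : ℕ := Q * x + b with hN'
  have hN'x : x ≤ N' := by
    have := Nat.le_mul_of_pos_left x hQpos
    omega
  have hform : ∀ i : ℕ, i < l → (N' + h i).Prime := by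
    intro i hi
    have h1 := hx2 ⟨i, hi⟩
    have h2 : Q * x + (b + h i) = N' + h i := by
      rw [hN']
      ring
    rw [← h2]
    exact h1
  have h00 : h 0 = 0 := by
    simp only [hh, Nat.add_zero, Nat.sub_self]
  have hN'p : N'.Prime := by
    have := hform 0 (by omega)
    rwa [h00] at this
  obtain ⟨m, -, hm⟩ := exists_index hN'p hk (show p k ≤ N' by omega) le_rfl
  have hm0 : m ≠ 0 := by
    intro h0
    rw [h0, Nat.add_zero] at hm
    omega
  refine hl2 (k + m) (by omega) (by omega) ?_
  have hnotp : ∀ v ∈ U, ¬ (N' + v).Prime := by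
    intro v hv hp
    have h1 : r v ∣ N' + v := by
      have h2 := hbu v hv
      have h3 := (hrQ v hv).mul_right x
      have h4 := dvd_add h3 h2
      have h5 : Q * x + (b + v) = N' + v := by
        rw [hN']
        ring
      rwa [h5] at h4
    have h2 := (Nat.prime_dvd_prime_iff_eq (hrp v) hp).1 h1
    have h3 := Nat.le_of_dvd hQpos (hrQ v hv)
    omega
  have main : ∀ i : ℕ, i < l → p (k + m + i) = N' + h i := by
    intro i
    induction i with
    | zero =>
      intro _
      rw [Nat.add_zero, h00, hm, Nat.add_zero]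
    | succ i ih =>
      intro hi
      have ih' := ih (by omega)
      have hlt : h i < h (i + 1) := by
        have h1 := hph i
        have h2 := hph (i + 1)
        have h3 : p (k + i) < p (k + (i + 1)) := p_strictMono (by omega) (by omega)
        omega
      refine succ_eq (a := k + m + i) (by omega) (by omega) (hform (i + 1) hi) ?_
      intro s hs1 hs2 hsp
      obtain ⟨v, rfl⟩ : ∃ v, s = N' + v := ⟨s - N', by omega⟩
      refine hnotp v ?_ hsp
      rw [hU, mem_filter, mem_range]
      have h1 := hhD (i + 1) hi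
      refine ⟨by omega, ?_⟩
      have h2 := hph i
      have h3 := hph (i + 1)
      refine not_prime_between (a := k + i) (by omega) (by omega) ?_
      have h4 : k + i + 1 = k + (i + 1) := by ring
      rw [h4]
      omega
  intro i hi
  have h1 := main i hi
  have h2 := hph i
  rw [h1, hm, ← h2]
  push_cast
  ring

end Pool.Agent.H65.UL
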