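import Pool.Agent.H90.UL.Targets

/-!
# Row NUM of the board ul_modules
-/

set_option autoImplicit false

namespace Pool.Agent.H65.UL

open Pool.Agent.H90.UL Finset Real

/-- the fourth root and the logarithm of `M` -/
lemma log_data {M : ℕ} (hM : 3307 ≤ M) : ∃ s : ℝ, 7.58 ≤ s ∧ s ^ 4 = M ∧ √(M : ℝ) = s ^ 2 ∧
    Real.log M ≤ s / 2 + 4.318 ∧ 8 ≤ Real.log M := by
  have hM' : (3307 : ℝ) ≤ M := by exact_mod_cast hM
  have h0 : (0 : ℝ) ≤ √(M : ℝ) := Real.sqrt_nonneg _
  have h1 : √(M : ℝ) = √√(M : ℝ) ^ 2 := (Real.sq_sqrt h0).symm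
  have h2 : √√(M : ℝ) ^ 4 = M := by
    have : √√(M : ℝ) ^ 4 = (√√(M : ℝ) ^ 2) ^ 2 := by ring
    rw [this, ← h1]
    exact Real.sq_sqrt (by linarith)
  set s : ℝ := √√(M : ℝ) with hs
  have hs0 : 0 ≤ s := Real.sqrt_nonneg _
  have h3 : 7.58 ≤ s := by
    by_contra hlt
    push Not at hlt
    have h4 : s ^ 4 ≤ (7.58 : ℝ) ^ 4 := pow_le_pow_left₀ hs0 hlt.le 4
    rw [h2] at h4
    norm_num at h4
    linarith
  have hspos : 0 < s := by linarith
  refine ⟨s, h3, h2, h1, ?_, ?_⟩
  · have h5 : Real.log M = 4 * Real.log s := by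
      rw [← h2, Real.log_pow]
      norm_num
    have h6 : Real.log s = Real.log (s / 8) + 3 * Real.log 2 := by
      have h7 : (3 : ℝ) * Real.log 2 = Real.log 8 := by
        have h8 : (8 : ℝ) = 2 ^ 3 := by norm_num
        rw [h8, Real.log_pow]
        norm_num
      rw [h7, ← Real.log_mul (by positivity) (by norm_num)]
      congr 1
      ring
    have h9 := Real.log_le_sub_one_of_pos (show 0 < s / 8 by positivity)
    have h10 := Real.log_two_lt_d9
    rw [h5, h6]
    linarith
  · rw [Real.le_log_iff_exp_le (by linarith)]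
    have h5 : Real.exp 8 = Real.exp 1 ^ 8 := by
      rw [← Real.exp_nat_mul]
      norm_num
    have h6 := Real.exp_one_lt_d9
    have h7 : Real.exp 1 ^ 8 ≤ 2.7182818286 ^ 8 :=
      pow_le_pow_left₀ (Real.exp_pos 1).le h6.le 8
    rw [h5]
    refine h7.trans ?_
    norm_num
    linarith

lemma log_ten_le : Real.log 10 ≤ 2.3107 := by
  have h1 : (3 : ℝ) * Real.log 10 ≤ 10 * Real.log 2 := by
    have h2 : (3 : ℝ) * Real.log 10 = Real.log (10 ^ 3) := by
      rw [Real.log_pow]
      norm_num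
    have h3 : (10 : ℝ) * Real.log 2 = Real.log (2 ^ 10) := by
      rw [Real.log_pow]
      norm_num
    rw [h2, h3]
    exact Real.log_le_log (by norm_num) (by norm_num)
  have h10 := Real.log_two_lt_d9
  linarith

lemma log_ratio : (0.1 : ℝ) ≤ Real.log (10 / 9) := by
  have h1 : Real.log (10 / 9) = - Real.log (9 / 10) := by
    rw [← Real.log_inv]
    norm_num
  have h2 := Real.log_le_sub_one_of_pos (show (0 : ℝ) < 9 / 10 by norm_num)
  rw [h1]
  linarith

/-- the number of the primes in `(M, 10 M]` -/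
lemma count_primes (M : ℕ) : ((Ioc M (10 * M)).filter Nat.Prime).card + Nat.primeCounting M =
    Nat.primeCounting (10 * M) := by
  have h1 : ∀ n : ℕ, Nat.primeCounting n = ((Ioc 0 n).filter Nat.Prime).card := by
    intro n
    rw [Nat.primeCounting, Nat.primeCounting', Nat.count_eq_card_filter_range]
    congr 1
    ext x
    simp only [mem_filter, mem_range, mem_Ioc]
    constructor
    · rintro ⟨h1, h2⟩
      exact ⟨⟨h2.pos, by omega⟩, h2⟩
    · rintro ⟨⟨h1, h3⟩, h2⟩
      exact ⟨by omega, h2⟩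
  rw [h1, h1, ← Finset.card_union_of_disjoint]
  · congr 1
    ext x
    simp only [mem_union, mem_filter, mem_Ioc]
    constructor
    · rintro (⟨⟨h1, h3⟩, h2⟩ | ⟨⟨h1, h3⟩, h2⟩)
      · exact ⟨⟨by omega, h3⟩, h2⟩
      · exact ⟨⟨h1, by omega⟩, h2⟩
    · rintro ⟨⟨h1, h3⟩, h2⟩
      rcases Nat.lt_or_ge M x with h4 | h4
      · exact Or.inl ⟨⟨h4, h3⟩, h2⟩
      · exact Or.inr ⟨⟨h1, h4⟩, h2⟩
  · rw [Finset.disjoint_left]
    intro x h1 h2
    simp only [mem_filter, mem_Ioc] at h1 h2
    omega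

theorem pf_num : T_NUM := by
  intro M hM
  obtain ⟨s, hs, hs4, hs2, hL1, hL2⟩ := log_data hM
  have hM' : (3307 : ℝ) ≤ M := by exact_mod_cast hM
  have hMpos : (0 : ℝ) < M := by linarith
  set L : ℝ := Real.log M with hL
  have hT1 := Real.log_two_gt_d9
  have hT2 := Real.log_two_lt_d9
  set T : ℝ := Real.log 2 with hT
  have hK := log_ten_le
  have hK0 : 0 ≤ Real.log 10 := Real.log_nonneg (by norm_num)
  set K : ℝ := Real.log 10 with hKdef
  have hR := log_ratio
  have hlog4 : Real.log 4 = 2 * T := by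
    have h8 : (4 : ℝ) = 2 ^ 2 := by norm_num
    rw [h8, Real.log_pow, hT]
    norm_num
  have hlog10M : Real.log ((10 * M : ℕ) : ℝ) = K + L := by
    push_cast
    rw [Real.log_mul (by norm_num) hMpos.ne']
  have hlog2M : Real.log (2 * (M : ℝ)) = T + L := by
    rw [Real.log_mul (by norm_num) hMpos.ne']
  have hlogM1 : Real.log ((M : ℝ) + 1) ≤ T + L := by
    rw [← hlog2M]
    exact Real.log_le_log (by linarith) (by linarith)
  set d : ℕ := ⌊(M : ℝ) * Real.log 4 / L⌋₊ with hd
  set j : ℕ := ⌈Real.log (2 * (M : ℝ)) / Real.log (10 / 9)⌉₊ with hj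
  have hLpos : 0 < L := by linarith
  have hRpos : 0 < Real.log (10 / 9) := by linarith
  have hj1 : Real.log (2 * (M : ℝ)) / Real.log (10 / 9) ≤ j := Nat.le_ceil _
  have hj2 : (j : ℝ) ≤ 10 * L + 7.932 := by
    have h1 : (j : ℝ) < Real.log (2 * (M : ℝ)) / Real.log (10 / 9) + 1 :=
      Nat.ceil_lt_add_one (by rw [hlog2M]; positivity)
    have h2 : Real.log (2 * (M : ℝ)) / Real.log (10 / 9) ≤ 10 * (T + L) := by
      rw [hlog2M, div_le_iff₀ hRpos]
      have e0 : 0 ≤ T + L := by linarith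
      have e1 := mul_le_mul_of_nonneg_left hR e0
      linarith
    linarith
  have hjpos : 1 ≤ j := by
    rw [hj, Nat.one_le_ceil_iff, hlog2M]
    have : 0 < T + L := by linarith
    positivity
  -- powers
  have hpow9 : 2 * (M * 9 ^ j) ≤ 10 ^ j := by
    have h1 : Real.log (2 * (M : ℝ)) ≤ j * Real.log (10 / 9) := (div_le_iff₀ hRpos).1 hj1
    have h2 : Real.log (2 * (M : ℝ)) ≤ Real.log ((10 / 9) ^ j) := by
      rw [Real.log_pow]
      exact h1
    have h3 : 2 * (M : ℝ) ≤ (10 / 9) ^ j :=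
      (Real.log_le_log_iff (by positivity) (by positivity)).1 h2
    rw [div_pow, le_div_iff₀ (by positivity)] at h3
    have h4 : ((2 * (M * 9 ^ j) : ℕ) : ℝ) ≤ ((10 ^ j : ℕ) : ℝ) := by
      push_cast
      linarith
    exact_mod_cast h4
  -- the primorial
  have hprim : 2 * (10 * M) ^ j ≤ primorial M := by
    have h1 := Chebyshev.theta_ge M
    have h2 := Chebyshev.theta_eq_log_primorial (M : ℝ)
    rw [Nat.floor_natCast] at h2
    rw [h2, hs2] at h1
    have hppos : (0 : ℝ) < primorial M := by exact_mod_cast primorial_pos M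
    have h3 : Real.log (((2 * (10 * M) ^ j : ℕ) : ℝ)) ≤ Real.log (primorial M) := by
      have h4 : Real.log (((2 * (10 * M) ^ j : ℕ) : ℝ)) = T + j * (K + L) := by
        rw [← hlog10M]
        push_cast
        rw [Real.log_mul (by norm_num) (by positivity), Real.log_pow]
      rw [h4]
      refine le_trans ?_ h1
      have h5 : (j : ℝ) * (K + L) ≤ (10 * L + 7.932) * (2.3107 + L) := by
        apply mul_le_mul hj2 (by linarith) (by linarith) (by linarith)
      have h6 : (10 * L + 7.932) * (2.3107 + L) ≤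
          (10 * (s / 2 + 4.318) + 7.932) * (2.3107 + (s / 2 + 4.318)) := by
        apply mul_le_mul (by linarith) (by linarith) (by linarith) (by linarith)
      have h7 : 2 * s ^ 2 * L ≤ 2 * s ^ 2 * (s / 2 + 4.318) :=
        mul_le_mul_of_nonneg_left hL1 (by positivity)
      have h8 : 0.6931 * s ^ 4 ≤ (M : ℝ) * T := by
        rw [← hs4, mul_comm]
        exact mul_le_mul_of_nonneg_left (by linarith) (by positivity)
      have h9 : T + (10 * (s / 2 + 4.318) + 7.932) * (2.3107 + (s / 2 + 4.318)) ≤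
          0.6931 * s ^ 4 - (0.7 + (s / 2 + 4.318)) - 2 * s ^ 2 * (s / 2 + 4.318) := by
        obtain ⟨t, ht, rfl⟩ : ∃ t : ℝ, 0 ≤ t ∧ s = 7.58 + t := ⟨s - 7.58, by linarith, by ring⟩
        have e1 : 0 ≤ t ^ 2 := by positivity
        have e2 : 0 ≤ t ^ 3 := by positivity
        have e3 : 0 ≤ t ^ 4 := by positivity
        clear_value T K L
        clear h1 h2 h5 h6 h7 h8 hs4 hs2 hL1 hj1 hj2 hpow9
        linarith
      linarith
    have h4 := (Real.log_le_log_iff (by positivity) hppos).1 h3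
    exact_mod_cast h4
  refine ⟨d, j, ?_, ?_, ?_⟩
  · -- 4 ^ M ≤ (M + 1) ^ (d + 1)
    have h1 : (M : ℝ) * Real.log 4 / L < d + 1 := Nat.lt_floor_add_one _
    have h2 : (M : ℝ) * Real.log 4 < (d + 1) * L := (div_lt_iff₀ hLpos).1 h1
    have h3 : Real.log ((4 : ℝ) ^ M) ≤ Real.log (((M : ℝ) + 1) ^ (d + 1)) := by
      rw [Real.log_pow, Real.log_pow]
      have h4 : L ≤ Real.log ((M : ℝ) + 1) := Real.log_le_log hMpos (by linarith)
      have h5 : ((d + 1 : ℕ) : ℝ) * L ≤ ((d + 1 : ℕ) : ℝ) * Real.log ((M : ℝ) + 1) :=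
        mul_le_mul_of_nonneg_left h4 (by positivity)
      push_cast at h5 ⊢
      linarith
    have h4 := (Real.log_le_log_iff (by positivity) (by positivity)).1 h3
    exact_mod_cast h4
  · -- the count
    have h1 := count_primes M
    have h2 := Chebyshev.pi_ge (10 * M)
    have h3 := Chebyshev.pi_le_log4_mul_div (x := (M : ℝ)) (by linarith)
    rw [Nat.floor_natCast, hs2] at h3
    have h4 : Real.log (s ^ 2) = L / 2 := by
      rw [← hs2, Real.log_sqrt (by linarith)]
    rw [h4, hlog4] at h3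
    rw [hlog10M] at h2
    have h5 : Real.log (((10 * M : ℕ) : ℝ) + 1) ≤ 2 * (K + L) := by
      have e1 : Real.log (((10 * M : ℕ) : ℝ) + 1) ≤ Real.log (2 * ((10 * M : ℕ) : ℝ)) := by
        apply Real.log_le_log
        · positivity
        · push_cast
          linarith
      rw [Real.log_mul (by norm_num) (by positivity), hlog10M] at e1
      linarith
    have hKL : 0 < K + L := by linarith
    have h6 : 10 * (M : ℝ) * T / (K + L) - 2 ≤ Nat.primeCounting (10 * M) := by
      refine le_trans ?_ h2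
      rw [sub_div]
      have e1 : Real.log (((10 * M : ℕ) : ℝ) + 1) / (K + L) ≤ 2 := by
        rw [div_le_iff₀ hKL]
        exact h5
      have e2 : ((10 * M : ℕ) : ℝ) * T / (K + L) = 10 * (M : ℝ) * T / (K + L) := by
        push_cast
        ring
      rw [e2]
      linarith
    have h7 : 6 * (T * M / L) + 1.75 * (T * M / L) ≤ 10 * (M : ℝ) * T / (K + L) := by
      rw [le_div_iff₀ hKL]
      have e1 : (6 * (T * M / L) + 1.75 * (T * M / L)) * (K + L) =
          7.75 * (K + L) / L * (T * M) := by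
        field_simp
        ring
      rw [e1]
      have e2 : 7.75 * (K + L) / L ≤ 10 := by
        rw [div_le_iff₀ hLpos]
        linarith
      have e3 : 0 ≤ T * M := by
        have : 0 ≤ T := by linarith
        positivity
      have e4 := mul_le_mul_of_nonneg_right e2 e3
      linarith
    have h8 : s ^ 2 + 10 * L + 7.932 + 2 ≤ 1.75 * (T * M / L) := by
      have e1 : 1.75 * (T * M / L) = 1.75 * T * M / L := by ring
      rw [e1, le_div_iff₀ hLpos, ← hs4]
      have e2 : (s ^ 2 + 10 * L + 7.932 + 2) * L ≤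
          (s ^ 2 + 10 * (s / 2 + 4.318) + 7.932 + 2) * (s / 2 + 4.318) := by
        have : 0 ≤ s ^ 2 := by positivity
        apply mul_le_mul (by linarith) hL1 (by linarith) (by linarith)
      have e3 : 1.75 * 0.6931 * s ^ 4 ≤ 1.75 * T * s ^ 4 := by
        exact mul_le_mul_of_nonneg_right (by linarith) (by positivity)
      refine e2.trans (le_trans ?_ e3)
      obtain ⟨t, ht, rfl⟩ : ∃ t : ℝ, 0 ≤ t ∧ s = 7.58 + t := ⟨s - 7.58, by linarith, by ring⟩
      have e4 : 0 ≤ t ^ 2 := by positivity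
      have e5 : 0 ≤ t ^ 3 := by positivity
      have e6 : 0 ≤ t ^ 4 := by positivity
      linarith
    have h9 : (d : ℝ) ≤ 2 * (T * M / L) := by
      have e1 : (d : ℝ) ≤ (M : ℝ) * Real.log 4 / L := Nat.floor_le (by
        rw [hlog4]
        have : 0 ≤ T := by linarith
        positivity)
      rw [hlog4] at e1
      have e2 : (M : ℝ) * (2 * T) / L = 2 * (T * M / L) := by ring
      linarith
    have h10 : 2 * T * (M : ℝ) / (L / 2) = 4 * (T * M / L) := by
      field_simp
      ring
    rw [h10] at h3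
    have h11 : ((Nat.primeCounting (10 * M) : ℕ) : ℝ) =
        (((Ioc M (10 * M)).filter Nat.Prime).card : ℝ) + (Nat.primeCounting M : ℝ) := by
      exact_mod_cast h1.symm
    have h12 : ((d + j : ℕ) : ℝ) ≤ ((((Ioc M (10 * M)).filter Nat.Prime).card : ℕ) : ℝ) := by
      push_cast
      linarith
    exact_mod_cast h12
  · -- the final inequality
    set W : ℕ := (10 * M) ^ j with hW
    set N0 : ℕ := primorial M with hN0
    have h1 : 2 * (M * (9 * M) ^ j) ≤ W := by
      have e1 : 2 * (M * (9 * M) ^ j) = 2 * (M * 9 ^ j) * M ^ j := by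
        rw [Nat.mul_pow]
        ring
      have e2 : W = 10 ^ j * M ^ j := by rw [hW, Nat.mul_pow]
      rw [e1, e2]
      exact Nat.mul_le_mul_right _ hpow9
    have h2 : 4 * (M * j) ≤ N0 := by
      have e1 : j ≤ (10 * M) ^ (j - 1) := by
        have e2 : j - 1 < (10 * M) ^ (j - 1) := Nat.lt_pow_self (by omega)
        omega
      have e3 : W = 10 * M * (10 * M) ^ (j - 1) := by
        rw [hW, ← pow_succ']
        congr 1
        omega
      have e4 : 10 * M * j ≤ W := by
        rw [e3]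
        exact Nat.mul_le_mul_left _ e1
      have e5 : 4 * (M * j) ≤ 10 * M * j := by
        rw [← Nat.mul_assoc]
        exact Nat.mul_le_mul_right _ (Nat.mul_le_mul_right _ (by norm_num))
      omega
    have h3 : 2 * (M * (9 * M) ^ j * (N0 + W)) ≤ W * (N0 + W) := by
      calc 2 * (M * (9 * M) ^ j * (N0 + W)) = 2 * (M * (9 * M) ^ j) * (N0 + W) := by ring
        _ ≤ W * (N0 + W) := Nat.mul_le_mul_right _ h1
    have h4 : 4 * (M * j * W) ≤ N0 * W := by
      calc 4 * (M * j * W) = 4 * (M * j) * W := by ring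
        _ ≤ N0 * W := Nat.mul_le_mul_right _ h2
    have h5 : 2 * W * W ≤ N0 * W := Nat.mul_le_mul_right _ hprim
    linarith

end Pool.Agent.H65.UL
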